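import Mathlib

namespace Pool.Agent.Results.MP_c984ee_an.Eigenvalue
open Complex Metric MeasureTheory Set Filter Topology
open scoped Real

/-- the square with centre `c`, half-side `‖u‖` and direction `u` -/
def Sq (c u : ℂ) : Set ℂ := {z | |((z - c) / u).re| ≤ 1 ∧ |((z - c) / u).im| ≤ 1}

/-- Muckenhoupt weights -/
def Ap (p : ℝ) (w : ℂ → ℝ) : Prop := LocallyIntegrable w ∧ (∀ᵐ z, 0 < w z) ∧
  LocallyIntegrable (fun z => w z ^ (-1 / (p - 1))) ∧ ∃ C, ∀ c u : ℂ, u ≠ 0 →
    (⨍ z in Sq c u, w z) * (⨍ z in Sq c u, w z ^ (-1 / (p - 1))) ^ (p - 1) ≤ C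

/-- the principal value defining the Ahlfors-Beurling transform of `f` at `z` exists and is `a` -/
def Beurling (f : ℂ → ℂ) (z a : ℂ) : Prop :=
  (∀ ε > 0, IntegrableOn (fun ζ => f ζ / (z - ζ) ^ 2) (closedBall z ε)ᶜ) ∧
    Tendsto (fun ε : ℝ => -1 / π * ∫ ζ in (closedBall z ε)ᶜ, f ζ / (z - ζ) ^ 2) (𝓝[>] 0) (𝓝 a)

noncomputable def w (z : ℂ) : ℝ := (1 + ‖z‖) ^ (-(3 / 2) : ℝ)

lemma cw (r : ℝ) : Continuous fun z : ℂ => (1 + ‖z‖) ^ r :=
  Continuous.rpow_const (by fun_prop) fun z => .inl (by positivity)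

lemma wb : ∃ K ≥ 0, ∀ R ≥ 1, ∫ z in ball (0 : ℂ) R, w z ≤ K * R ^ 2 * R ^ (-(3 / 2) : ℝ) := by
  refine ⟨∫ z in ball (0 : ℂ) 1, ‖z‖ ^ (-(3 / 2) : ℝ), integral_nonneg fun z => by positivity,
    fun R hR => ?_⟩
  have p : 0 < R := by linarith
  have e := Measure.setIntegral_comp_smul_of_pos volume w (ball (0 : ℂ) 1) p
  rw [smul_unitBall_of_pos p, finrank_real_complex, smul_eq_mul, eq_inv_mul_iff_mul_eq₀
    (by positivity)] at e
  rw [← e, mul_comm _ (R ^ 2), mul_assoc, ← integral_mul_const]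
  refine mul_le_mul_of_nonneg_left (integral_mono_of_nonneg (.of_forall fun z => by
    unfold w; positivity) (Integrable.mul_const ?_ _) (ae_restrict_of_ae ?_)) (by positivity)
  · exact integrableOn_ball_of_norm_le_rpow (C := 1) (α := 3 / 2) (by simp) (by simp; norm_num)
      (.of_forall fun z => by rw [one_mul, Real.norm_of_nonneg (by positivity)])
      (Measurable.aestronglyMeasurable (by fun_prop))
  · filter_upwards [Measure.ae_ne volume (0 : ℂ)] with z hz
    rw [← Real.mul_rpow (norm_nonneg _) p.le, w, norm_smul, Real.norm_of_nonneg p.le, mul_comm R]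
    exact Real.rpow_le_rpow_of_nonpos (by positivity) (by linarith) (by norm_num)

lemma ap (p : ℝ) (hp : 1 < p) : Ap p w := by
  have q : 0 < p - 1 := by linarith
  have e : ∀ z, w z ^ (-1 / (p - 1)) = (1 + ‖z‖) ^ (3 / 2 / (p - 1)) := fun z => by
    rw [w, ← Real.rpow_mul (by positivity)]; congr 1; ring
  obtain ⟨K, K0, hK⟩ := wb
  simp only [Ap, e]
  refine ⟨(cw _).locallyIntegrable, .of_forall fun z => by unfold w; positivity,
    (cw _).locallyIntegrable, 5 ^ (3 / 2 : ℝ) + 25 * K, fun c u hu => ?_⟩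
  have u0 : 0 < ‖u‖ := norm_pos_iff.2 hu
  have mQ : MeasurableSet (Sq c u) := IsClosed.measurableSet <|
    (isClosed_le (f := fun z : ℂ => |((z - c) / u).re|) (by fun_prop) continuous_const).inter
      (isClosed_le (f := fun z : ℂ => |((z - c) / u).im|) (by fun_prop) continuous_const)
  have s1 : ball c ‖u‖ ⊆ Sq c u := fun z hz => by
    have : ‖(z - c) / u‖ ≤ 1 := by
      rw [norm_div, div_le_one u0]; exact (mem_ball_iff_norm.1 hz).le
    exact ⟨(abs_re_le_norm _).trans this, (abs_im_le_norm _).trans this⟩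
  have s2 : Sq c u ⊆ closedBall c (2 * ‖u‖) := fun z hz => by
    have := norm_le_abs_re_add_abs_im ((z - c) / u)
    rw [norm_div, div_le_iff₀ u0] at this
    rw [mem_closedBall_iff_norm]; nlinarith [hz.1, hz.2]
  have fin : volume (Sq c u) ≠ ⊤ := ((measure_mono s2).trans_lt measure_closedBall_lt_top).ne
  have v : ‖u‖ ^ 2 ≤ volume.real (Sq c u) := by
    refine le_trans ?_ (measureReal_mono s1 fin)
    simp [Measure.real]; nlinarith [Real.pi_gt_three, sq_pos_of_pos u0]
  have v0 : 0 < volume.real (Sq c u) := by nlinarith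
  have i : ∀ r : ℝ, IntegrableOn (fun z : ℂ => (1 + ‖z‖) ^ r) (Sq c u) := fun r =>
    ((cw r).continuousOn.integrableOn_compact (isCompact_closedBall _ _)).mono_set s2
  have av : ∀ r M : ℝ, (∀ z ∈ Sq c u, (1 + ‖z‖) ^ r ≤ M) →
      ⨍ z in Sq c u, (1 + ‖z‖) ^ r ≤ M := fun r M h => by
    rw [setAverage_eq, smul_eq_mul, inv_mul_le_iff₀ v0, ← smul_eq_mul, ← setIntegral_const]
    exact setIntegral_mono_on (i r) (integrableOn_const fin) mQ h
  set R := 1 + ‖c‖ + 2 * ‖u‖ with hR
  have R1 : 1 ≤ R := by linarith [norm_nonneg c]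
  have up : ∀ z ∈ Sq c u, 1 + ‖z‖ ≤ R := fun z hz => by
    linarith [norm_le_norm_add_const_of_dist_le (s2 hz)]
  have b2 : (⨍ z in Sq c u, (1 + ‖z‖) ^ (3 / 2 / (p - 1))) ^ (p - 1) ≤ R ^ (3 / 2 : ℝ) := by
    refine (Real.rpow_le_rpow (integral_nonneg fun z => by positivity) (av _ _ fun z hz =>
      Real.rpow_le_rpow (by positivity) (up z hz) (by positivity)) q.le).trans_eq ?_
    rw [← Real.rpow_mul (by positivity), div_mul_cancel₀ _ q.ne']
  have b1 : ⨍ z in Sq c u, w z ≤ (5 ^ (3 / 2 : ℝ) + 25 * K) * R ^ (-(3 / 2) : ℝ) := by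
    have r0 : 0 < R ^ (-(3 / 2) : ℝ) := by positivity
    rcases le_total (5 * ‖u‖) R with h | h
    · refine (av _ ((R / 5) ^ (-(3 / 2) : ℝ)) fun z hz => Real.rpow_le_rpow_of_nonpos
        (by positivity) ?_ (by norm_num)).trans ?_
      · have := norm_le_norm_add_const_of_dist_le (dist_comm z c ▸ mem_closedBall.1 (s2 hz))
        linarith
      · rw [Real.div_rpow (by positivity) (by norm_num), Real.rpow_neg (x := 5) (by norm_num),
          div_inv_eq_mul]
        nlinarith
    · rw [setAverage_eq, smul_eq_mul, inv_mul_le_iff₀ v0]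
      refine (setIntegral_mono_set (((cw _).continuousOn.integrableOn_compact
        (isCompact_closedBall 0 R)).mono_set ball_subset_closedBall)
        (.of_forall fun z => Real.rpow_nonneg (by positivity) _) (HasSubset.Subset.eventuallyLE fun z hz =>
          mem_ball_zero_iff.2 (by linarith [up z hz]))).trans ((hK R R1).trans ?_)
      rw [← mul_assoc]
      refine mul_le_mul_of_nonneg_right ?_ r0.le
      have : R ^ 2 ≤ 25 * volume.real (Sq c u) := by nlinarith
      have : (0 : ℝ) < 5 ^ (3 / 2 : ℝ) := by positivity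
      nlinarith
  refine (mul_le_mul b1 b2 (Real.rpow_nonneg (integral_nonneg fun z => by positivity) _)
    (by positivity)).trans_eq ?_
  rw [mul_assoc, ← Real.rpow_add (by positivity)]; simp

noncomputable def g : ℝ → ℝ := indicator (Icc 0 1) 1

lemma mg : Measurable g := measurable_one.indicator measurableSet_Icc

lemma g0 (x : ℝ) : 0 ≤ g x := indicator_nonneg (fun _ _ => zero_le_one) x

lemma ig (a r : ℝ) (hr : 1 < r) :
    Integrable fun z : ℂ => g (a + z.re) * (1 + ‖z.im‖) ^ (-r) := by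
  have : Integrable g := (integrable_indicator_iff measurableSet_Icc).2
    (integrableOn_const (by simp))
  exact (volume_preserving_equiv_real_prod.integrable_comp_emb
    measurableEquivRealProd.measurableEmbedding).2 ((this.comp_add_left a).mul_prod
      (integrable_one_add_norm (E := ℝ) (by simpa using hr)))

lemma kb (δ : ℝ) (h : 0 < δ) (u : ℂ) (hu : δ ≤ ‖u‖) :
    ‖1 / u ^ 2‖ ≤ (1 + 1 / δ) ^ 2 * (1 + ‖u.im‖) ^ (-2 : ℝ) := by
  have u0 : 0 < ‖u‖ := by linarith
  rw [Real.rpow_neg (by positivity), Real.rpow_two, ← div_eq_mul_inv, norm_div, norm_pow, norm_one,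
    div_le_div_iff₀ (by positivity) (by positivity), one_mul, ← mul_pow]
  refine pow_le_pow_left₀ (by positivity) ?_ _
  have : 1 ≤ 1 / δ * ‖u‖ := by rwa [one_div, ← div_eq_inv_mul, one_le_div h]
  have := abs_im_le_norm u
  rw [Real.norm_eq_abs]; linarith

lemma inn (x ε : ℝ) (hx : x ≠ 0) (hε : 0 < ε) :
    ∫ y : ℝ, indicator (closedBall (0 : ℂ) ε)ᶜ (fun u => 1 / u ^ 2) (x + y * I) =
      (-2 * √(ε ^ 2 - x ^ 2) / ε ^ 2 : ℂ) := by
  set s := √(ε ^ 2 - x ^ 2) with hs
  have s0 : 0 ≤ s := Real.sqrt_nonneg _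
  have n : ∀ y : ℝ, (x : ℂ) + y * I ≠ 0 := fun y h => hx (by simpa using congrArg re h)
  have i : Integrable fun y : ℝ => 1 / ((x : ℂ) + y * I) ^ 2 :=
    ((integrable_one_add_norm (E := ℝ) (r := 2) (by simp)).const_mul ((1 + 1 / |x|) ^ 2)).mono'
      (Measurable.aestronglyMeasurable (by fun_prop)) (.of_forall fun y => by
        simpa using kb |x| (abs_pos.2 hx) (x + y * I) (by simpa using abs_re_le_norm (x + y * I)))
  have d : ∀ y : ℝ, HasDerivAt (fun y : ℝ => I / ((x : ℂ) + y * I)) (1 / (x + y * I) ^ 2) y :=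
    fun y => by
      convert! (hasDerivAt_const y I).fun_div
        (((hasDerivAt_id' y).ofReal_comp.mul_const I).const_add (x : ℂ)) (n y) using 1
      simp
  have t : Tendsto (fun y : ℝ => I / ((x : ℂ) + y * I)) (cocompact ℝ) (𝓝 0) := by
    refine squeeze_zero_norm' (a := fun y => ‖y‖⁻¹) ?_
      (tendsto_inv_atTop_zero.comp tendsto_norm_cocompact_atTop)
    filter_upwards [(isCompact_singleton (x := (0 : ℝ))).compl_mem_cocompact] with y hy
    rw [norm_div, norm_I, one_div]
    exact inv_anti₀ (norm_pos_iff.2 hy) (by simpa using abs_im_le_norm (x + y * I))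
  rw [cocompact_eq_atBot_atTop, tendsto_sup] at t
  have : (fun y : ℝ => indicator (closedBall (0 : ℂ) ε)ᶜ (fun u => 1 / u ^ 2) (x + y * I)) =ᵐ[volume]
      indicator (Iic (-s) ∪ Ioi s) fun y => 1 / (x + y * I) ^ 2 := by
    filter_upwards [Measure.ae_ne volume 0, Measure.ae_ne volume (-s)] with y y0 y1
    classical
    rw [indicator_apply, indicator_apply]
    refine if_congr ?_ rfl rfl
    rw [mem_compl_iff, mem_closedBall_zero_iff, not_le, ← sq_lt_sq₀ hε.le (norm_nonneg _),
      Complex.sq_norm, normSq_add_mul_I, ← sub_lt_iff_lt_add', ← sq_abs y,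
      ← Real.sqrt_lt' (abs_pos.2 y0), ← hs, lt_abs, lt_neg, or_comm, mem_union, mem_Iic,
      le_iff_lt_or_eq, or_iff_left y1]
    rfl
  rw [integral_congr_ae this, integral_indicator (measurableSet_Iic.union measurableSet_Ioi),
    setIntegral_union (Iic_disjoint_Ioi (by linarith)) measurableSet_Ioi i.integrableOn
      i.integrableOn, integral_Ioi_of_hasDerivAt_of_tendsto' (fun y _ => d y) i.integrableOn t.2,
    integral_Iic_of_hasDerivAt_of_tendsto' (fun y _ => d y) i.integrableOn t.1]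
  rcases le_total (ε ^ 2 - x ^ 2) 0 with h | h
  · simp [hs, Real.sqrt_eq_zero'.2 h]
  have e : (ε : ℂ) ^ 2 = (x + (-s : ℝ) * I) * (x + s * I) := by
    have : (s : ℂ) ^ 2 = ε ^ 2 - x ^ 2 := by exact_mod_cast Real.sq_sqrt h
    push_cast; linear_combination -this + s ^ 2 * I_sq
  rw [e, zero_sub, sub_zero, neg_div' , div_add_div _ _ (n _) (n _)]
  congr 1
  push_cast; linear_combination 2 * s * I_sq

lemma disc (ε : ℝ) (hε : 0 < ε) : ∫ x : ℝ, √(ε ^ 2 - x ^ 2) = π / 2 * ε ^ 2 := by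
  have e : ∀ x, √(ε ^ 2 - x ^ 2) = ε * √(1 - (x / ε) ^ 2) := fun x => by
    rw [← Real.sqrt_sq hε.le, ← Real.sqrt_mul (sq_nonneg _), Real.sqrt_sq hε.le]
    congr 1; field_simp
  simp only [e]
  rw [integral_const_mul, Measure.integral_comp_div (fun t => √(1 - t ^ 2)),
    ← intervalIntegral.integral_eq_integral_of_support_subset (a := -1) (b := 1),
    integral_sqrt_one_sub_sq, abs_of_pos hε, smul_eq_mul]
  · ring
  intro x hx
  have := Real.sqrt_ne_zero'.1 hx
  constructor <;> nlinarith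

theorem result (p : ℝ) (hp : 1 < p) : ∃ w : ℂ → ℝ, Ap p w ∧ ∃ f : ℂ → ℂ, Measurable f ∧
    Integrable (fun z => ‖f z‖ ^ p * w z) ∧ ¬ f =ᵐ[volume] 0 ∧ ∀ᵐ z, Beurling f z (f z) := by
  have mf : Measurable fun z : ℂ => (g z.re : ℂ) := by have := mg; fun_prop
  refine ⟨w, ap p hp, fun z => g z.re, mf, ?_, fun h => ?_, ?_⟩
  · refine (ig 0 (3 / 2) (by norm_num)).mono'
      ((mf.norm.pow_const p).mul (cw _).measurable).aestronglyMeasurable (.of_forall fun z => ?_)
    have : ‖(g z.re : ℂ)‖ ^ p = g z.re := by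
      by_cases h : z.re ∈ Icc (0 : ℝ) 1 <;> simp [g, h, (zero_lt_one.trans hp).ne']
    rw [this, zero_add, Real.norm_of_nonneg (mul_nonneg (g0 _) (by unfold w; positivity))]
    exact mul_le_mul_of_nonneg_left (Real.rpow_le_rpow_of_nonpos (by positivity)
      (by simpa using abs_im_le_norm z) (by norm_num)) (g0 _)
  · refine (measure_ball_pos volume (1 / 2 : ℂ) (r := 1 / 2) (by norm_num)).ne'
      (measure_mono_null (fun z hz => ?_) h)
    have := abs_lt.1 ((abs_re_le_norm _).trans_lt (mem_ball_iff_norm.1 hz))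
    simp at this
    have : z.re ∈ Icc (0 : ℝ) 1 := ⟨by linarith, by linarith⟩
    simp [g, this.1, this.2]
  have ne : ∀ a : ℝ, ∀ᵐ z : ℂ, z.re ≠ a := fun a =>
    (Measure.quasiMeasurePreserving_fst.comp
      volume_preserving_equiv_real_prod.quasiMeasurePreserving).ae (Measure.ae_ne volume a)
  filter_upwards [ne 0, ne 1] with z z0 z1
  set F : ℝ → ℂ → ℂ := fun ε u =>
    g (z.re + u.re) * indicator (closedBall (0 : ℂ) ε)ᶜ (fun u => 1 / u ^ 2) u with hF
  have e : ∀ ε, indicator (closedBall z ε)ᶜ (fun ζ : ℂ => (g ζ.re : ℂ) / (z - ζ) ^ 2) =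
      fun ζ => F ε (ζ - z) := fun ε => funext fun ζ => by
    by_cases h : ‖ζ - z‖ ≤ ε
    · simp [hF, h, dist_eq_norm]
    · simp [hF, h, dist_eq_norm, div_eq_mul_inv, sub_sq_comm z]
  have mc : ∀ c ε, MeasurableSet (closedBall (c : ℂ) ε)ᶜ := fun _ _ => measurableSet_closedBall.compl
  have iF : ∀ ε > 0, Integrable (F ε) := fun ε hε => by
    refine ((ig z.re 2 one_lt_two).const_mul ((1 + 1 / ε) ^ 2)).mono'
      (Measurable.aestronglyMeasurable (Measurable.mul (by have := mg; fun_prop)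
        (Measurable.indicator (by fun_prop) (mc _ _)))) (.of_forall fun u => ?_)
    rw [hF, norm_mul, norm_real, Real.norm_of_nonneg (g0 _), mul_left_comm]
    refine mul_le_mul_of_nonneg_left ?_ (g0 _)
    by_cases h : u ∈ (closedBall (0 : ℂ) ε)ᶜ
    · rw [indicator_of_mem h]; exact kb ε hε u (not_le.1 (mt mem_closedBall_zero_iff.2 h)).le
    · rw [indicator_of_notMem h, norm_zero]; positivity
  refine ⟨fun ε hε => (integrable_indicator_iff (mc _ _)).1 (e ε ▸ (iF ε hε).comp_sub_right z),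
    tendsto_const_nhds.congr' ?_⟩
  have : ∀ᶠ x in 𝓝 z.re, g x = g z.re := by
    by_cases h : z.re ∈ Icc (0 : ℝ) 1
    · filter_upwards [Icc_mem_nhds (h.1.lt_of_ne' z0) (h.2.lt_of_ne z1)] with x hx
      simp [g, h, hx]
    · filter_upwards [isClosed_Icc.isOpen_compl.mem_nhds h] with x hx
      rw [g, indicator_of_notMem h, indicator_of_notMem hx]
  obtain ⟨δ, hδ, hb⟩ := Metric.eventually_nhds_iff.1 this
  filter_upwards [Ioo_mem_nhdsGT hδ] with ε hε
  rw [← integral_indicator (mc _ _), e, integral_sub_right_eq_self,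
    ← volume_preserving_equiv_real_prod.symm.integral_comp
      measurableEquivRealProd.symm.measurableEmbedding, Measure.volume_eq_prod, integral_prod
      (fun q => F ε (measurableEquivRealProd.symm q)) ((volume_preserving_equiv_real_prod.symm.integrable_comp_emb
        measurableEquivRealProd.symm.measurableEmbedding).2 (iF ε hε.1)),
    integral_congr_ae (g := fun x => (g z.re * (-2 / ε ^ 2) * (√(ε ^ 2 - x ^ 2) : ℝ) : ℂ)),
    integral_const_mul, integral_complex_ofReal, disc ε hε.1]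
  · have := ofReal_ne_zero.2 hε.1.ne'
    have := ofReal_ne_zero.2 Real.pi_ne_zero
    push_cast; field_simp
  filter_upwards [Measure.ae_ne volume 0] with x hx
  simp only [hF, measurableEquivRealProd_symm_apply]
  simp only [integral_const_mul, mk_eq_add_mul_I]
  rw [inn x ε hx hε.1]
  rcases le_or_gt (ε ^ 2 - x ^ 2) 0 with h | h
  · simp [Real.sqrt_eq_zero'.2 h]
  rw [hb (y := z.re + x) (by
    rw [dist_self_add_left, Real.norm_eq_abs]
    exact (abs_lt_of_sq_lt_sq (by linarith) hε.1.le).trans hε.2)]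
  ring

end Pool.Agent.Results.MP_c984ee_an.Eigenvalue
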